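import Pool.Agent.Lib.Q22.Blue1
import Pool.Agent.Lib.PK1.LOC3A

/-! Factorisation in a two-dimensional regular local ring inside a field. -/

open Pool.Agent.Lib.MP_e06174_ag IsLocalRing
open Pool.Agent.Lib.PK1 hiding Ov
open scoped Classical

noncomputable section

namespace Pool.Agent.Lib.Q22

namespace UFD

theorem par {A : Type} [CommRing A] [IsDomain A] [IsLocalRing A] [IsNoetherianRing A] {s t : A}
    (e : maximalIdeal A = Ideal.span {s, t})
    (hd : ∀ c : A, ¬maximalIdeal A ≤ (Ideal.span {c}).radical) : Reg2.Par s t := by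
  refine ⟨e, ?_⟩
  rw [← maximalIdeal_height_eq_ringKrullDim]
  have h1 : (maximalIdeal A).height ≤ 2 := by
    refine (Ideal.height_le_spanFinrank _ (maximalIdeal.isMaximal _).ne_top).trans ?_
    rw [e]
    have := Submodule.spanFinrank_span_le_ncard_of_finite (R := A) (s := {s, t}) (by simp)
    exact_mod_cast this.trans (Set.ncard_insert_le _ _ |>.trans (by simp))
  obtain ⟨a, ha, h2⟩ := SetLike.not_le_iff_exists.1 (hd 0)
  obtain ⟨z, hz, h4⟩ := SetLike.not_le_iff_exists.1 (hd a)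
  rw [Ideal.radical_eq_sInf, Ideal.mem_sInf] at h4
  push Not at h4
  obtain ⟨p, ⟨h5, hp⟩, h6⟩ := h4
  have h7 : (⊥ : Ideal A) < p := bot_lt_iff_ne_bot.2 fun e0 => h2 (by
    have : a = 0 := Ideal.mem_bot.1 (e0 ▸ h5 (Ideal.mem_span_singleton_self _))
    rw [this]; exact zero_mem _)
  have h8 : p < maximalIdeal _ := (le_maximalIdeal hp.ne_top).lt_of_ne fun e0 => h6 (e0 ▸ hz)
  have h9 := Ideal.height_add_one_le_of_lt_of_isPrime h7
  have h10 := Ideal.height_add_one_le_of_lt_of_isPrime h8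
  have h11 : (2 : ℕ∞) ≤ (maximalIdeal A).height :=
    le_trans (add_le_add (le_add_self.trans h9) le_rfl : (1 : ℕ∞) + 1 ≤ _) h10
  rw [le_antisymm h1 h11]; rfl

variable {K E : Type} [Field K] [Field E] [Algebra K E] {R : Subring E}

/-- `v` is the place of the prime element `π`. -/
def Good (R : Subring E) (v : Place K E) (π : R) : Prop :=
  R ≤ v.O.toSubring ∧ Prime π ∧ v.ord (π : E) = 1 ∧ (∀ z : R, v.Ge 1 (z : E) ↔ π ∣ z) ∧
    ∀ z : E, v.Ge 0 z → ∃ a ∈ R, ∃ b ∈ R, ¬v.Ge 1 b ∧ z * b = a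

theorem exists_good [IsNoetherianRing R] (hc : ∀ c : K, algebraMap K E c ∈ R)
    (hf : ∀ z : E, ∃ a ∈ R, ∃ b ∈ R, b ≠ 0 ∧ z * b = a) {π : R} (hπ : Prime π) :
    ∃ v : Place K E, Good R v π := by
  obtain ⟨v, h1, h2⟩ := LOC3.exists_place R hc (fun z => by
    obtain ⟨a, ha, b, hb, h⟩ := hf z
    exact ⟨⟨a, ha⟩, ⟨b, hb⟩, h⟩) hπ
  have h3 : ∀ z : R, v.Ge 1 (z : E) ↔ π ∣ z := fun z => by
    rw [h2, zpow_one]
    constructor
    · rintro ⟨r, s, hs, e⟩
      exact (hπ.dvd_or_dvd (⟨r, Subtype.ext e⟩ : π ∣ z * s)).resolve_right hs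
    · rintro ⟨r, rfl⟩
      exact ⟨r, 1, hπ.not_dvd_one, by simp⟩
  refine ⟨v, fun z hz => Place.mem_O.2 ((h2 0 z).2 ⟨⟨z, hz⟩, 1, hπ.not_dvd_one, by simp⟩), hπ, h1,
    h3, fun z hz => ?_⟩
  obtain ⟨r, s, hs, e⟩ := (h2 0 z).1 hz
  exact ⟨r, r.2, s, s.2, fun h => hs ((h3 s).1 h), by simpa using e⟩

theorem Good.ord_zero {v : Place K E} {π : R} (h : Good R v π) {b : R} (hb : ¬π ∣ b) :
    (b : E) ≠ 0 ∧ v.ord (b : E) = 0 := by
  have h0 : (b : E) ≠ 0 := fun e => hb (by rw [show b = 0 from Subtype.ext e]; exact dvd_zero _)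
  have h1 := (Place.mem_O.1 (h.1 b.2)).le h0
  have h2 : ¬(1 : ℤ) ≤ v.ord (b : E) := fun k => hb ((h.2.2.2.1 b).1 (Place.ge_of_le k))
  exact ⟨h0, by omega⟩

theorem Good.eq {v w : Place K E} {π π' : R} (h : Good R v π) (h' : Good R w π') (hd : π ∣ π') :
    v = w := by
  refine Place.ext_of_ge fun z hz => ?_
  obtain ⟨a, ha, b, hb, h1, h2⟩ := h.2.2.2.2 z hz
  have h3 : ¬π' ∣ ⟨b, hb⟩ := fun k => h1 ((h.2.2.2.1 ⟨b, hb⟩).2 (hd.trans k))
  obtain ⟨h4, h5⟩ := h'.ord_zero h3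
  have h6 : w.Ge 0 a := Place.mem_O.1 (h'.1 ha)
  have h7 : w.Ge 0 b⁻¹ := Place.ge_of_le (by rw [Place.ord_inv]; exact (neg_eq_zero.2 h5).ge)
  have h8 : z = a * b⁻¹ := by rw [← h2, mul_inv_cancel_right₀ h4]
  rw [h8]
  exact h6.mul' h7 (by norm_num)

/-- The chosen prime element of a place. -/
def pr (R : Subring E) (v : Place K E) : R := if h : ∃ π, Good R v π then h.choose else 1

theorem pr_good {v : Place K E} {π : R} (h : Good R v π) : Good R v (pr R v) := by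
  rw [pr, dif_pos ⟨π, h⟩]
  exact Exists.choose_spec (⟨π, h⟩ : ∃ π, Good R v π)

theorem pr_ne (v : Place K E) : (pr R v : E) ≠ 0 := by
  by_cases h : ∃ π, Good R v π
  · obtain ⟨π, h⟩ := h
    exact fun e => (pr_good h).2.1.ne_zero (Subtype.ext e)
  · rw [pr, dif_neg h]
    exact one_ne_zero

variable (K R) in
/-- The elements that have a factorisation. -/
def Fac (f : E) : Prop := ∃ (e : Place K E →₀ ℤ) (u : Rˣ),
  (∀ v ∈ e.support, Good R v (pr R v)) ∧ f = ((u : R) : E) * e.prod fun v n => (pr R v : E) ^ n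

theorem Fac.mul {f g : E} (hf : Fac K R f) (hg : Fac K R g) : Fac K R (f * g) := by
  obtain ⟨e, u, h1, rfl⟩ := hf
  obtain ⟨e', u', h2, rfl⟩ := hg
  refine ⟨e + e', u * u', fun v hv => ?_, ?_⟩
  · rcases Finset.mem_union.1 (Finsupp.support_add hv) with h | h
    exacts [h1 v h, h2 v h]
  · rw [Finsupp.prod_add_index' (fun _ => zpow_zero _) fun v a b => zpow_add₀ (pr_ne v) a b]
    push_cast
    ring

theorem Fac.inv {f : E} (hf : Fac K R f) : Fac K R f⁻¹ := by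
  obtain ⟨e, u, h1, rfl⟩ := hf
  refine ⟨-e, u⁻¹, fun v hv => h1 v (Finsupp.support_neg e ▸ hv), ?_⟩
  have h2 : (((u⁻¹ : Rˣ) : R) : E) = (((u : R) : E))⁻¹ :=
    eq_inv_of_mul_eq_one_left (by rw [← Subring.coe_mul, u.inv_mul, Subring.coe_one])
  rw [Finsupp.prod_neg_index fun _ => zpow_zero _, h2, mul_inv, Finsupp.prod, Finsupp.prod,
    ← Finset.prod_inv_distrib]
  simp only [zpow_neg]

theorem fac_all [IsNoetherianRing R] [UniqueFactorizationMonoid R]
    (hc : ∀ c : K, algebraMap K E c ∈ R) (hf : ∀ z : E, ∃ a ∈ R, ∃ b ∈ R, b ≠ 0 ∧ z * b = a)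
    {f : E} (h0 : f ≠ 0) : Fac K R f := by
  have key : ∀ a : R, a ≠ 0 → Fac K R (a : E) := fun a =>
    UniqueFactorizationMonoid.induction_on_prime a (fun h => absurd rfl h)
      (fun x hx _ => ⟨0, hx.unit, by simp, by simp⟩) fun a p ha hp ih _ => by
        rw [Subring.coe_mul]
        refine Fac.mul ?_ (ih ha)
        obtain ⟨v, hv⟩ := exists_good hc hf hp
        have hv' := pr_good hv
        obtain ⟨u, hu⟩ := hv'.2.1.associated_of_dvd hp
          ((hv'.2.2.2.1 p).1 ((hv.2.2.2.1 p).2 dvd_rfl))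
        refine ⟨Finsupp.single v 1, u, fun w hw => ?_, ?_⟩
        · rw [Finset.mem_singleton.1 (Finsupp.support_single_subset hw)]
          exact hv'
        · rw [Finsupp.prod_single_index (zpow_zero _), zpow_one, ← hu, Subring.coe_mul, mul_comm]
  obtain ⟨a, ha, b, hb, h1, h2⟩ := hf f
  have h3 : f = a * b⁻¹ := by rw [← h2, mul_inv_cancel_right₀ h1]
  have h4 : a ≠ 0 := h2 ▸ mul_ne_zero h0 h1
  rw [h3]
  exact (key ⟨a, ha⟩ fun e => h4 (congrArg Subtype.val e)).mul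
    (key ⟨b, hb⟩ fun e => h1 (congrArg Subtype.val e)).inv

end UFD

open UFD in
theorem stUFD : St_UFD := by
  intro K E _ _ _ R _ _ s t hc hf hm hd f h0
  have := (UFD.par hm hd).ufd
  obtain ⟨e, u, h1, h2⟩ := fac_all (K := K) hc hf h0
  refine ⟨e.support, pr R, u, h1, ?_⟩
  have h3 : ∀ v ∈ e.support, v.ord f = e v := fun v hv => by
    have hv' := h1 v hv
    have h4 := hv'.ord_zero (b := (u : R)) fun k => hv'.2.1.not_unit (isUnit_of_dvd_unit k u.isUnit)
    rw [h2, Finsupp.prod, v.ord_mul h4.1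
      (Finset.prod_ne_zero_iff.2 fun w _ => zpow_ne_zero _ (pr_ne w)), h4.2, zero_add,
      v.ord_prod _ _ fun w _ => zpow_ne_zero _ (pr_ne w), Finset.sum_eq_single_of_mem v hv]
    · rw [Place.ord_zpow, hv'.2.2.1, mul_one]
    · intro w hw hne
      rw [Place.ord_zpow, (hv'.ord_zero fun k => hne (hv'.eq (h1 w hw) k).symm).2, mul_zero]
  rw [Finset.prod_congr rfl fun v hv => by rw [h3 v hv]]
  exact h2

end Pool.Agent.Lib.Q22
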